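import Mathlib

set_option autoImplicit false

namespace Pool.Agent.Lib.MP_b466f1_co

/-- No loops, and at most one of the edges `uv`, `vu`. -/
def IsOriented {V : Type} (G : V → V → Prop) : Prop := ∀ u v, G u v → ¬ G v u

/-- `G` contains a (not necessarily induced) copy of `H`. -/
def Contains {W V : Type} (G : W → W → Prop) (H : V → V → Prop) : Prop :=
  ∃ f : V → W, Function.Injective f ∧ ∀ u v, H u v → G (f u) (f v)

/-- The smallest out-degree or in-degree of a vertex. -/
noncomputable def minSemiDeg {W : Type} (G : W → W → Prop) : ℕ :=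
  sInf {d | ∃ v, d = {w | G v w}.ncard ∨ d = {w | G w v}.ncard}

/-- Every large semi-regular near-tournament contains `H`. -/
def Turanable {V : Type} (H : V → V → Prop) : Prop :=
  ∃ n₀ : ℕ, ∀ (W : Type) [Fintype W] (G : W → W → Prop), n₀ ≤ Fintype.card W → IsOriented G →
    minSemiDeg G = (Fintype.card W - 1) / 2 → Contains G H

/-- The tournament `F_r` on `[3]^r`. -/
def Ftour (r : ℕ) (u v : Fin r → Fin 3) : Prop :=
  ∃ i, (∀ j, j < i → u j = v j) ∧ v i = u i + 1

/-- The `l`-th power `C_k^l` of the directed cycle on `ℤ_k`. -/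
def cyclePow (k l : ℕ) (u v : ZMod k) : Prop :=
  ∃ j : ℕ, 1 ≤ j ∧ j ≤ l ∧ v = u + j

end Pool.Agent.Lib.MP_b466f1_co
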