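import Pool.Agent.Lib.helper91.Rup

set_option autoImplicit false

namespace Pool.Agent.Lib.MP_b466f1_co

open Pool.Agent.Lib.helper91.Rup

def adj (u w : ℕ) : Bool :=
  Nat.blt u 27 && Nat.blt w 27 && tb 13978 ((w + 27 - u) % 27)

def PP (m i j : ℕ) : Prop := i + 2 * j + 2 ≤ m ∨ 2 * m ≤ 2 * i + j + 1

def sem (m : ℕ) (A p : ℕ → ℕ) : ℕ → ℕ → ℕ → Prop
  | 0, a, b => A a = (A 0 + b) % 3
  | 1, a, b => 3 * p a + A a < 3 * p b + A b
  | 2, a, b => A a = A b
  | 3, a, b => A b = (A a + 1) % 3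
  | 4, a, b => A b = (A a + 1) % 3 → ¬ (p a + 2 * p b + 2 ≤ m)
  | _, a, b => A b = (A a + 1) % 3 → ¬ (2 * m ≤ 2 * p a + p b + 1)

def val (m : ℕ) (A p : ℕ → ℕ) (x : ℕ) : Prop := sem m A p (x % 8) (x / 8 % 32) (x / 256)

def pl (k a b : ℕ) : ℕ := 2 * (k + 8 * (a + 32 * b))
def nl (k a b : ℕ) : ℕ := 2 * (k + 8 * (a + 32 * b)) + 1
def ob (u w : ℕ) : ℕ := cond (Nat.blt u w) (pl 1 u w) (nl 1 w u)
def nb (u w : ℕ) : ℕ := cond (Nat.blt u w) (nl 1 u w) (pl 1 w u)
def scp (u w : ℕ) : ℕ := cond (Nat.blt u w) (pl 2 u w) (pl 2 w u)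
def scn (u w : ℕ) : ℕ := cond (Nat.blt u w) (nl 2 u w) (nl 2 w u)
def opt (u w : ℕ) (c : List ℕ) : List ℕ := cond (Nat.beq u w) [] c

def mk : ℕ → ℕ → ℕ → ℕ → ℕ → List ℕ
  | 0, v, _, _, _ => [pl 0 v 0, pl 0 v 1, pl 0 v 2]
  | 1, v, a, b, _ => [nl 0 v a, nl 0 v b]
  | 2, _, _, _, _ => [pl 0 0 0]
  | 3, u, w, a, _ => [nl 0 u a, nl 0 w a, scp u w]
  | 4, u, w, z, _ => [nb u w, nb w z, nb z u]
  | 5, x, y, _, _ => [scn x y, ob x y]
  | 6, x, y, a, _ => [nl 0 x a, nl 0 y ((a + 1) % 3), pl 3 x y]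
  | 7, x, y, _, _ => [nl 3 x y, nl 4 x y, nl 5 x y]
  | 8, x, y, x1, y1 => pl 4 x y :: (opt x x1 [scn x x1, nb x1 x] ++ opt y y1 [scn y y1, nb y1 y])
  | _, x, y, x1, y1 => pl 5 x y :: (opt x x1 [scn x x1, nb x x1] ++ opt y y1 [scn y y1, nb y y1])

def ne (a b : ℕ) : Bool := !(Nat.beq a b)

def wf : ℕ → ℕ → ℕ → ℕ → ℕ → Bool
  | 0, v, _, _, _ => Nat.blt v 27
  | 1, v, a, b, _ => Nat.blt v 27 && Nat.blt a 3 && Nat.blt b 3 && ne a b
  | 2, _, _, _, _ => true
  | 3, u, w, _, _ => Nat.blt u 27 && Nat.blt w 27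
  | 4, u, w, z, _ => Nat.blt u 27 && Nat.blt w 27 && Nat.blt z 27 && ne u w && ne w z && ne z u
  | 5, x, y, _, _ => adj x y && ne x y
  | 6, x, y, _, _ => Nat.blt x 27 && Nat.blt y 27
  | 7, x, y, _, _ => adj x y
  | _, x, y, x1, y1 => Nat.blt x 27 && Nat.blt y 27 && adj y1 x1

def leq : List ℕ → List ℕ → Bool
  | [], [] => true
  | a :: c, b :: d => Nat.beq a b && leq c d
  | _, _ => false

def core (c : List ℕ) : List ℕ → Bool
  | [t, a, b, d, e] => wf t a b d e && leq c (mk t a b d e)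
  | _ => false

theorem leq_eq : ∀ c d, leq c d = true → c = d
  | [], [], _ => rfl
  | [], _ :: _, h => by simp [leq] at h
  | _ :: _, [], h => by simp [leq] at h
  | a :: c, b :: d, h => by
    simp only [leq, Bool.and_eq_true, Nat.beq_eq] at h
    rw [h.1, leq_eq c d h.2]

theorem ne_iff (a b : ℕ) : ne a b = true ↔ a ≠ b := by
  unfold ne
  rw [Bool.not_eq_true', ← Bool.not_eq_true, Nat.beq_eq]

theorem adj_lt {u w : ℕ} (h : adj u w = true) : u < 27 ∧ w < 27 := by
  simp only [adj, Bool.and_eq_true, Nat.blt_eq] at h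
  exact h.1

section
variable (m : ℕ) (A p : ℕ → ℕ)

theorem lit_pl {k a : ℕ} (b : ℕ) (hk : k < 8) (ha : a < 27) :
    lit (val m A p) (pl k a b) ↔ sem m A p k a b := by
  have e0 : pl k a b % 2 = 0 := by unfold pl; omega
  have e1 : pl k a b / 2 % 8 = k := by unfold pl; omega
  have e2 : pl k a b / 2 / 8 % 32 = a := by unfold pl; omega
  have e3 : pl k a b / 2 / 256 = b := by unfold pl; omega
  rw [lit, if_pos e0, val, e1, e2, e3]

theorem lit_nl {k a : ℕ} (b : ℕ) (hk : k < 8) (ha : a < 27) :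
    lit (val m A p) (nl k a b) ↔ ¬ sem m A p k a b := by
  have e0 : ¬ nl k a b % 2 = 0 := by unfold nl; omega
  have e1 : nl k a b / 2 % 8 = k := by unfold nl; omega
  have e2 : nl k a b / 2 / 8 % 32 = a := by unfold nl; omega
  have e3 : nl k a b / 2 / 256 = b := by unfold nl; omega
  rw [lit, if_neg e0, val, e1, e2, e3]

theorem lit_scp {u w : ℕ} (hu : u < 27) (hw : w < 27) :
    lit (val m A p) (scp u w) ↔ A u = A w := by
  unfold scp
  cases Nat.blt u w
  · rw [cond_false, lit_pl m A p _ (by omega) hw]; exact eq_comm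
  · rw [cond_true, lit_pl m A p _ (by omega) hu]; rfl

theorem lit_scn {u w : ℕ} (hu : u < 27) (hw : w < 27) :
    lit (val m A p) (scn u w) ↔ ¬ A u = A w := by
  unfold scn
  cases Nat.blt u w
  · rw [cond_false, lit_nl m A p _ (by omega) hw]; exact not_congr eq_comm
  · rw [cond_true, lit_nl m A p _ (by omega) hu]; rfl

variable (hA : ∀ u, A u < 3)
  (hinj : ∀ u w, u < 27 → w < 27 → A u = A w → p u = p w → u = w)
include hA hinj

theorem lit_ob {u w : ℕ} (hu : u < 27) (hw : w < 27) (h : u ≠ w) :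
    lit (val m A p) (ob u w) ↔ 3 * p u + A u < 3 * p w + A w := by
  unfold ob
  cases Nat.blt u w
  · rw [cond_false, lit_nl m A p _ (by omega) hw]
    have := hinj u w hu hw
    have := hA u
    have := hA w
    change ¬ (_ < _) ↔ _
    omega
  · rw [cond_true, lit_pl m A p _ (by omega) hu]; rfl

theorem lit_nb {u w : ℕ} (hu : u < 27) (hw : w < 27) (h : u ≠ w) :
    lit (val m A p) (nb u w) ↔ ¬ 3 * p u + A u < 3 * p w + A w := by
  unfold nb
  cases Nat.blt u w
  · rw [cond_false, lit_pl m A p _ (by omega) hw]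
    have := hinj u w hu hw
    have := hA u
    have := hA w
    change (_ < _) ↔ _
    omega
  · rw [cond_true, lit_nl m A p _ (by omega) hu]; rfl

omit hA hinj in
theorem sat_cons (v : ℕ → Prop) (l : ℕ) (c : List ℕ) : Sat v (l :: c) ↔ lit v l ∨ Sat v c := by
  simp [Sat]

omit hA hinj in
theorem sat_nil (v : ℕ → Prop) : Sat v [] ↔ False := by simp [Sat]

omit hA hinj in
theorem sat_append (v : ℕ → Prop) (c d : List ℕ) : Sat v (c ++ d) ↔ Sat v c ∨ Sat v d := by
  simp [Sat, or_and_right, exists_or]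

theorem sat_opt {x x1 u w : ℕ} (hx : x < 27) (hx1 : x1 < 27)
    (h : (u = x ∧ w = x1) ∨ (u = x1 ∧ w = x))
    (hn : ¬ Sat (val m A p) (opt x x1 [scn x x1, nb u w])) : A x = A x1 ∧ p u ≤ p w := by
  unfold opt at hn
  cases hb : Nat.beq x x1
  · have hne : x ≠ x1 := fun h => by rw [h, Nat.beq_refl] at hb; exact absurd hb (by decide)
    rw [hb, cond_false, sat_cons, sat_cons, sat_nil, lit_scn m A p hx hx1,
      lit_nb m A p hA hinj (by omega) (by omega) (by omega)] at hn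
    rcases h with ⟨rfl, rfl⟩ | ⟨rfl, rfl⟩ <;> omega
  · have := Nat.eq_of_beq_eq_true hb
    subst this
    rcases h with ⟨rfl, rfl⟩ | ⟨rfl, rfl⟩ <;> exact ⟨rfl, le_rfl⟩

theorem core_sound
    (hE : ∀ u w, adj u w = true → (A u = A w ∧ p u < p w) ∨
      (A w = (A u + 1) % 3 ∧ PP m (p u) (p w)) ∨ (A u = (A w + 1) % 3 ∧ ¬ PP m (p w) (p u)))
    (c h : List ℕ) (hc : core c h = true) : Sat (val m A p) c := by
  match h, hc with
  | [t, a, b, d, e], hc =>
    simp only [core, Bool.and_eq_true] at hc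
    obtain ⟨hw, hc⟩ := hc
    rw [leq_eq _ _ hc]
    have h0 := hA 0
    have ha := hA a
    have hb := hA b
    match t, hw with
    | 0, hw =>
      simp only [wf, Nat.blt_eq] at hw
      simp only [mk, sat_cons, sat_nil, lit_pl m A p _ (show 0 < 8 by omega) hw, sem]
      omega
    | 1, hw =>
      simp only [wf, Nat.blt_eq, Bool.and_eq_true, ne_iff] at hw
      simp only [mk, sat_cons, sat_nil, lit_nl m A p _ (show 0 < 8 by omega) hw.1.1.1, sem]
      omega
    | 2, _ =>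
      simp only [mk, sat_cons, sat_nil, lit_pl m A p _ (show 0 < 8 by omega) (show 0 < 27 by omega),
        sem]
      omega
    | 3, hw =>
      simp only [wf, Nat.blt_eq, Bool.and_eq_true] at hw
      simp only [mk, sat_cons, sat_nil, lit_nl m A p _ (show 0 < 8 by omega) hw.1,
        lit_nl m A p _ (show 0 < 8 by omega) hw.2, lit_scp m A p hw.1 hw.2, sem]
      omega
    | 4, hw =>
      simp only [wf, Nat.blt_eq, Bool.and_eq_true, ne_iff] at hw
      obtain ⟨⟨⟨⟨⟨h1, h2⟩, h3⟩, h4⟩, h5⟩, h6⟩ := hw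
      simp only [mk, sat_cons, sat_nil, lit_nb m A p hA hinj h1 h2 h4,
        lit_nb m A p hA hinj h2 h3 h5, lit_nb m A p hA hinj h3 h1 h6]
      omega
    | 5, hw =>
      simp only [wf, Bool.and_eq_true, ne_iff] at hw
      have h1 := adj_lt hw.1
      have h2 := hE _ _ hw.1
      simp only [mk, sat_cons, sat_nil, lit_scn m A p h1.1 h1.2, lit_ob m A p hA hinj h1.1 h1.2 hw.2]
      omega
    | 6, hw =>
      simp only [wf, Nat.blt_eq, Bool.and_eq_true] at hw
      simp only [mk, sat_cons, sat_nil, lit_nl m A p _ (show 0 < 8 by omega) hw.1,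
        lit_nl m A p _ (show 0 < 8 by omega) hw.2, lit_pl m A p _ (show 3 < 8 by omega) hw.1, sem]
      omega
    | 7, hw =>
      simp only [wf] at hw
      have h1 := adj_lt hw
      have h2 := hE _ _ hw
      simp only [mk, sat_cons, sat_nil, lit_nl m A p _ (show 3 < 8 by omega) h1.1,
        lit_nl m A p _ (show 4 < 8 by omega) h1.1, lit_nl m A p _ (show 5 < 8 by omega) h1.1, sem]
      unfold PP at h2
      omega
    | 8, hw =>
      simp only [wf, Nat.blt_eq, Bool.and_eq_true] at hw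
      have h1 := adj_lt hw.2
      have h2 := hE _ _ hw.2
      simp only [mk, sat_cons, sat_append, lit_pl m A p _ (show 4 < 8 by omega) hw.1.1, sem]
      by_contra hn
      rw [not_or, not_or] at hn
      have h3 := sat_opt m A p hA hinj hw.1.1 h1.2 (Or.inr ⟨rfl, rfl⟩) hn.2.1
      have h4 := sat_opt m A p hA hinj hw.1.2 h1.1 (Or.inr ⟨rfl, rfl⟩) hn.2.2
      have h5 := hn.1
      unfold PP at h2
      omega
    | t + 9, hw =>
      simp only [wf, Nat.blt_eq, Bool.and_eq_true] at hw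
      have h1 := adj_lt hw.2
      have h2 := hE _ _ hw.2
      simp only [mk, sat_cons, sat_append, lit_pl m A p _ (show 5 < 8 by omega) hw.1.1, sem]
      by_contra hn
      rw [not_or, not_or] at hn
      have h3 := sat_opt m A p hA hinj hw.1.1 h1.2 (Or.inl ⟨rfl, rfl⟩) hn.2.1
      have h4 := sat_opt m A p hA hinj hw.1.2 h1.1 (Or.inl ⟨rfl, rfl⟩) hn.2.2
      have h5 := hn.1
      unfold PP at h2
      omega

end

end Pool.Agent.Lib.MP_b466f1_co
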