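import Pool.Agent.Lib.MP_b466f1_co.Defs
import Pool.Agent.Lib.MP_b466f1_co.Data

set_option autoImplicit false

namespace Pool.Agent.Lib.MP_b466f1_co

open Finset

def HH (u w : Fin 27) : Prop := adj u.val w.val = true

instance : DecidableRel HH := fun _ _ => inferInstanceAs (Decidable (_ = true))

theorem HH_oriented : IsOriented HH := by
  unfold IsOriented
  decide +kernel

def dig (u : Fin 27) : Fin 3 → Fin 3 :=
  ![⟨u.val % 3, Nat.mod_lt _ (by omega)⟩, ⟨u.val / 3 % 3, Nat.mod_lt _ (by omega)⟩,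
    ⟨u.val / 9 % 3, Nat.mod_lt _ (by omega)⟩]

theorem HH_F : Contains (Ftour 3) HH := by
  refine ⟨dig, ?_, ?_⟩
  · decide +kernel
  · unfold Ftour
    decide +kernel

theorem HH_C : Contains (cyclePow (2 * 13 + 1) 13) HH := by
  refine ⟨fun u => (u : ZMod 27), fun _ _ h => h, fun u v h => ?_⟩
  have : ∀ u v : Fin 27, HH u v → ∃ j : Fin 14, 1 ≤ j.val ∧ (v : ZMod 27) = @HAdd.hAdd (ZMod 27) (ZMod 27) (ZMod 27) _ u (j.val : ZMod 27) := by
    decide +kernel
  obtain ⟨j, h1, h2⟩ := this u v h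
  exact ⟨j, h1, by omega, h2⟩

def TT (m : ℕ) (x y : Fin 3 × Fin m) : Prop :=
  (x.1 = y.1 ∧ x.2 < y.2) ∨ (y.1 = x.1 + 1 ∧ PP m x.2 y.2) ∨ (x.1 = y.1 + 1 ∧ ¬ PP m y.2 x.2)

instance (m i j : ℕ) : Decidable (PP m i j) := inferInstanceAs (Decidable (_ ∨ _))

instance (m : ℕ) : DecidableRel (TT m) := fun _ _ => inferInstanceAs (Decidable (_ ∨ _))

theorem TT_oriented (m : ℕ) : IsOriented (TT m) := by
  rintro ⟨a, i⟩ ⟨b, j⟩ h1 h2
  unfold TT at h1 h2
  simp only [Fin.ext_iff, Fin.lt_def, Fin.val_add, Fin.val_one] at h1 h2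
  have := a.2
  have := b.2
  rcases h1 with h1 | h1 | h1 <;> rcases h2 with h2 | h2 | h2 <;>
    first | omega | exact h1.2 h2.2 | exact h2.2 h1.2

theorem not_contains (m : ℕ) : ¬ Contains (TT m) HH := by
  rintro ⟨f, hf, hE⟩
  let A : ℕ → ℕ := fun u => if h : u < 27 then (f ⟨u, h⟩).1.val else 0
  let p : ℕ → ℕ := fun u => if h : u < 27 then (f ⟨u, h⟩).2.val else 0
  refine d_refute (val m A p) (core_sound m A p ?_ ?_ ?_)
  · intro u
    simp only [A]
    split_ifs
    · exact Fin.is_lt _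
    · omega
  · intro u w hu hw h1 h2
    simp only [A, p, dif_pos hu, dif_pos hw] at h1 h2
    have : f ⟨u, hu⟩ = f ⟨w, hw⟩ := Prod.ext (Fin.ext h1) (Fin.ext h2)
    exact congrArg Fin.val (hf this)
  · intro u w h
    obtain ⟨hu, hw⟩ := adj_lt h
    have := hE ⟨u, hu⟩ ⟨w, hw⟩ h
    simp only [A, p, dif_pos hu, dif_pos hw]
    simpa only [TT, Fin.ext_iff, Fin.lt_def, Fin.val_add, Fin.val_one] using this

theorem count_two (m a b : ℕ) (h1 : a ≤ b) (h2 : a ≤ m) (P : ℕ → Prop) [DecidablePred P]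
    (hP : ∀ j, j < m → (P j ↔ j < a ∨ b ≤ j)) :
    ∑ j : Fin m, (if P j then 1 else 0 : ℕ) = a + (m - b) := by
  rw [Fin.sum_univ_eq_sum_range (fun j => if P j then 1 else 0 : ℕ → ℕ), ← card_filter]
  have : filter P (range m) = range a ∪ Ico b m := by
    ext j
    simp only [mem_filter, mem_range, mem_union, mem_Ico]
    constructor
    · rintro ⟨h, h'⟩
      have := (hP j h).1 h'
      omega
    · intro h
      have h' : j < m := by omega
      exact ⟨h', (hP j h').2 (by omega)⟩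
  rw [this, card_union_of_disjoint, card_range, Nat.card_Ico]
  rw [disjoint_left]
  intro j
  simp only [mem_range, mem_Ico]
  omega

theorem count_mid (m a b : ℕ) (h2 : b ≤ m) (P : ℕ → Prop) [DecidablePred P]
    (hP : ∀ j, j < m → (P j ↔ a ≤ j ∧ j < b)) :
    ∑ j : Fin m, (if P j then 1 else 0 : ℕ) = b - a := by
  rw [Fin.sum_univ_eq_sum_range (fun j => if P j then 1 else 0 : ℕ → ℕ), ← card_filter]
  have : filter P (range m) = Ico a b := by
    ext j
    simp only [mem_filter, mem_range, mem_Ico]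
    constructor
    · rintro ⟨h, h'⟩
      exact (hP j h).1 h'
    · intro h
      have h' : j < m := by omega
      exact ⟨h', (hP j h').2 h⟩
  rw [this, Nat.card_Ico]

theorem ncard_eq {m : ℕ} (a : Fin 3) (Q : Fin 3 × Fin m → Prop) [DecidablePred Q] :
    {w | Q w}.ncard = ∑ j : Fin m, (if Q (a, j) then 1 else 0 : ℕ) +
      ∑ j : Fin m, (if Q (a + 1, j) then 1 else 0 : ℕ) +
      ∑ j : Fin m, (if Q (a + 2, j) then 1 else 0 : ℕ) := by
  rw [Set.ncard_eq_toFinset_card', Set.toFinset_ofPred, card_filter, Fintype.sum_prod_type,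
    Fin.sum_univ_three]
  fin_cases a
  · rfl
  · change _ = ∑ j : Fin m, (if Q (1, j) then 1 else 0 : ℕ) +
      ∑ j : Fin m, (if Q (2, j) then 1 else 0 : ℕ) + ∑ j : Fin m, (if Q (0, j) then 1 else 0 : ℕ)
    omega
  · change _ = ∑ j : Fin m, (if Q (2, j) then 1 else 0 : ℕ) +
      ∑ j : Fin m, (if Q (0, j) then 1 else 0 : ℕ) + ∑ j : Fin m, (if Q (1, j) then 1 else 0 : ℕ)
    omega

theorem TT0 (m : ℕ) (a : Fin 3) (i j : Fin m) : TT m (a, i) (a, j) ↔ i.val < j.val := by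
  have : a ≠ a + 1 := by revert a; decide
  simp [TT, this]

theorem TT1 (m : ℕ) (a : Fin 3) (i j : Fin m) : TT m (a, i) (a + 1, j) ↔ PP m i j := by
  have h1 : a ≠ a + 1 := by revert a; decide
  have h2 : a ≠ a + 1 + 1 := by revert a; decide
  simp [TT, h1, h2]

theorem TT2 (m : ℕ) (a : Fin 3) (i j : Fin m) : TT m (a + 1, i) (a, j) ↔ ¬ PP m j i := by
  have h1 : a + 1 ≠ a := by revert a; decide
  have h2 : a ≠ a + 1 + 1 := by revert a; decide
  simp [TT, h1, h2]

theorem out_deg (k : ℕ) (x : Fin 3 × Fin (2 * k + 1)) :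
    {w | TT (2 * k + 1) x w}.ncard = 3 * k + 1 := by
  obtain ⟨a, i⟩ := x
  have hi := i.2
  have e : a = a + 2 + 1 := by revert a; decide
  have h2 : ∀ j, TT (2 * k + 1) (a, i) (a + 2, j) ↔ ¬ PP (2 * k + 1) j i := fun j => by
    conv_lhs => rw [e]
    have : a + 2 + 1 + 2 = a + 2 := by rw [← e]
    rw [this, TT2]
  rw [ncard_eq a]
  simp only [TT0, TT1, h2]
  rw [count_mid (2 * k + 1) (i + 1) (2 * k + 1) le_rfl (fun j => i.val < j) (by intro j; omega),
    count_two (2 * k + 1) ((2 * k + 1 - i) / 2) (2 * (2 * k + 1) - 2 * i - 1) (by omega) (by omega)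
      (fun j => PP (2 * k + 1) i j) (by intro j; unfold PP; omega),
    count_mid (2 * k + 1) (2 * k + 1 - 2 * i - 1) ((2 * (2 * k + 1) - i) / 2) (by omega)
      (fun j => ¬ PP (2 * k + 1) j i) (by intro j; unfold PP; omega)]
  omega

theorem in_deg (k : ℕ) (x : Fin 3 × Fin (2 * k + 1)) :
    {w | TT (2 * k + 1) w x}.ncard = 3 * k + 1 := by
  obtain ⟨a, i⟩ := x
  have hi := i.2
  have e : a = a + 2 + 1 := by revert a; decide
  have h2 : ∀ j, TT (2 * k + 1) (a + 2, j) (a, i) ↔ PP (2 * k + 1) j i := fun j => by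
    conv_lhs => rw [e]
    have : a + 2 + 1 + 2 = a + 2 := by rw [← e]
    rw [this, TT1]
  rw [ncard_eq a]
  simp only [TT0, TT2, h2]
  rw [count_mid (2 * k + 1) 0 i hi.le (fun j => j < i.val) (by intro j; omega),
    count_mid (2 * k + 1) ((2 * k + 1 - i) / 2) (min (2 * k + 1) (2 * (2 * k + 1) - 2 * i - 1))
      (by omega) (fun j => ¬ PP (2 * k + 1) i j) (by intro j; unfold PP; omega),
    count_two (2 * k + 1) (2 * k + 1 - 2 * i - 1) ((2 * (2 * k + 1) - i) / 2) (by omega) (by omega)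
      (fun j => PP (2 * k + 1) j i) (by intro j; unfold PP; omega)]
  omega

theorem TT_minSemiDeg (k : ℕ) : minSemiDeg (TT (2 * k + 1)) = 3 * k + 1 := by
  have : {d | ∃ v, d = {w | TT (2 * k + 1) v w}.ncard ∨ d = {w | TT (2 * k + 1) w v}.ncard} =
      {3 * k + 1} := by
    ext d
    simp only [out_deg, in_deg, or_self, Set.mem_ofPred_eq, exists_const, Set.mem_singleton_iff]
  rw [minSemiDeg, this, csInf_singleton]

theorem not_turanable : ¬ Turanable HH := by
  rintro ⟨n, h⟩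
  refine not_contains (2 * n + 1) (h (Fin 3 × Fin (2 * n + 1)) _ ?_ (TT_oriented _) ?_)
  · simp only [Fintype.card_prod, Fintype.card_fin]; omega
  · rw [TT_minSemiDeg]
    simp only [Fintype.card_prod, Fintype.card_fin]; omega

end Pool.Agent.Lib.MP_b466f1_co
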